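import Mathlib

/-!
# The number `33`

`33` is not a sum of four positive integers whose product is `p ^ 3 - p` with `p` prime. So the
assertion of Q1 fails (for `n = 33`).
-/

set_option autoImplicit false

namespace Pool.Agent.Results.MP_ae8880_nt.ThirtyThree

/-- the primes below `17` -/
lemma small_primes : ∀ p : ℕ, p < 17 → 2 ≤ p → (∀ q : ℕ, q < p → q < 2 ∨ p % q ≠ 0) →
    p ∈ [2, 3, 5, 7, 11, 13] := by
  decide

lemma check : ∀ a : ℕ, a < 31 → ∀ b : ℕ, b < 31 → ∀ c : ℕ, c < 31 →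
    a * b * c * (33 - (a + b + c)) ∉ [6, 24, 120, 336, 1320, 2184] := by
  decide +kernel

lemma amgm (a b c d : ℕ) (h : a + b + c + d = 33) : a * b * c * d < 17 ^ 3 - 17 := by
  have h1 : 4 * (a * b) ≤ (a + b) ^ 2 := by nlinarith [sq_nonneg ((a : ℤ) - b), four_mul_le_sq_add a b]
  have h2 : 4 * (c * d) ≤ (c + d) ^ 2 := by nlinarith [four_mul_le_sq_add c d]
  have h3 : 4 * ((a + b) * (c + d)) ≤ 33 ^ 2 := by
    have h5 := four_mul_le_sq_add (a + b) (c + d)
    have h4 : (a + b) + (c + d) = 33 := by omega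
    rw [h4] at h5
    linarith
  have h5 : (a + b) * (c + d) ≤ 272 := by omega
  have h6 : (4 * (a * b)) * (4 * (c * d)) ≤ (a + b) ^ 2 * (c + d) ^ 2 := Nat.mul_le_mul h1 h2
  have h7 : (a + b) ^ 2 * (c + d) ^ 2 ≤ 272 ^ 2 := by
    rw [← mul_pow]
    exact Nat.pow_le_pow_left h5 2
  have h8 : 16 * (a * b * c * d) ≤ 272 ^ 2 := by
    calc 16 * (a * b * c * d) = (4 * (a * b)) * (4 * (c * d)) := by ring
      _ ≤ 272 ^ 2 := h6.trans h7
  omega

/-- There is an integer `n > 8` (namely `33`) that is not the sum of four positive integers whose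
product is `p ^ 3 - p` for a prime `p`. -/
theorem result : ∃ n : ℕ, 8 < n ∧ ¬ ∃ a b c d p : ℕ, 0 < a ∧ 0 < b ∧ 0 < c ∧ 0 < d ∧ p.Prime ∧
    n = a + b + c + d ∧ a * b * c * d = p ^ 3 - p := by
  refine ⟨33, by norm_num, ?_⟩
  rintro ⟨a, b, c, d, p, ha, hb, hc, hd, hp, hs, hm⟩
  have hlt := amgm a b c d hs.symm
  have hp17 : p < 17 := by
    by_contra hcon
    have h17 : 17 ≤ p := not_lt.1 hcon
    rw [hm] at hlt
    have h1 : p ^ 3 - p = p * (p ^ 2 - 1) := by
      rw [Nat.mul_sub, mul_one]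
      congr 1
      ring
    have h2 : 17 ^ 2 ≤ p ^ 2 := Nat.pow_le_pow_left h17 2
    have h3 : 17 * (17 ^ 2 - 1) ≤ p * (p ^ 2 - 1) := Nat.mul_le_mul h17 (Nat.sub_le_sub_right h2 1)
    rw [h1] at hlt
    norm_num at hlt h3
    omega
  have hd' : d = 33 - (a + b + c) := by omega
  rw [hd'] at hm
  have hq : ∀ q < p, q < 2 ∨ p % q ≠ 0 := by
    intro q hq
    rcases Nat.lt_or_ge q 2 with h2 | h2
    · exact Or.inl h2
    · right
      intro h3
      have h4 : q ∣ p := Nat.dvd_of_mod_eq_zero h3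
      rcases (Nat.dvd_prime hp).1 h4 with h5 | h5 <;> omega
  have h1 := check a (by omega) b (by omega) c (by omega)
  apply h1
  rw [hm]
  have h2 := small_primes p hp17 hp.two_le hq
  simp only [List.mem_cons, List.not_mem_nil, or_false] at h2
  rcases h2 with rfl | rfl | rfl | rfl | rfl | rfl <;> decide

end Pool.Agent.Results.MP_ae8880_nt.ThirtyThree
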